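import Pool.Agent.Helper5.WD.Stmts

set_option autoImplicit false

open Finset Pool.Agent.Helper8.UN Pool.Agent.Helper5.FV

namespace Pool.Agent.Helper5.WD

theorem gbgc_mf {α : Type} (p : α → Prop) (dp : DecidablePred p) (s : Finset α) (a : α) :
    a ∈ @Finset.filter α p dp s ↔ a ∈ s ∧ p a := Finset.mem_filter

/-- forgetting the colours on `U'` -/
def gbgc_r {n : ℕ} (U' : Finset (Fin n)) (f : Fin n → ℕ) : Fin n → ℕ :=
  fun v => if v ∈ U' then 0 else f v

theorem gbgc_cc {n : ℕ} (E : Finset (Finset (Fin n))) (W U' : Finset (Fin n)) (k : ℕ)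
    (f : Fin n → ℕ) (hf : f ∈ CC E W k) : gbgc_r U' f ∈ CC E (W \ U') k := by
  classical
  unfold CC at hf ⊢
  rw [gbgc_mf, Fintype.mem_piFinset] at hf ⊢
  obtain ⟨h1, h2⟩ := hf
  refine ⟨?_, ?_⟩
  · intro v
    have h3 := h1 v
    unfold gbgc_r
    by_cases hv : v ∈ U'
    · rw [if_pos hv, if_neg (fun h => (mem_sdiff.1 h).2 hv)]
      exact mem_singleton_self 0
    · rw [if_neg hv]
      by_cases hw : v ∈ W
      · rw [if_pos (mem_sdiff.2 ⟨hw, hv⟩)]
        rw [if_pos hw] at h3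
        exact h3
      · rw [if_neg (fun h => hw (mem_sdiff.1 h).1)]
        rw [if_neg hw] at h3
        exact h3
  · intro e he hsub
    obtain ⟨u, hu, v, hv, huv⟩ := h2 e he (hsub.trans sdiff_subset)
    refine ⟨u, hu, v, hv, ?_⟩
    unfold gbgc_r
    rw [if_neg (mem_sdiff.1 (hsub hu)).2, if_neg (mem_sdiff.1 (hsub hv)).2]
    exact huv

theorem gbgc_ss {n : ℕ} (E : Finset (Finset (Fin n))) (W U : Finset (Fin n)) (k : ℕ) (a : Fin n)
    (ha : a ∈ U) (hU : U ⊆ W) (f : Fin n → ℕ) (hf : f ∈ SS E W k) (hc : ∀ u ∈ U, f u = f a) :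
    gbgc_r (U.erase a) f ∈ SS E (W \ U.erase a) k := by
  classical
  unfold SS at hf ⊢
  rw [gbgc_mf] at hf ⊢
  refine ⟨gbgc_cc E W _ k f hf.1, ?_⟩
  intro i hi
  obtain ⟨v, hv, hvi⟩ := hf.2 i hi
  by_cases hvU : v ∈ U.erase a
  · refine ⟨a, mem_sdiff.2 ⟨hU ha, notMem_erase a U⟩, ?_⟩
    unfold gbgc_r
    rw [if_neg (notMem_erase a U), ← hc v (mem_of_mem_erase hvU)]
    exact hvi
  · refine ⟨v, mem_sdiff.2 ⟨hv, hvU⟩, ?_⟩
    unfold gbgc_r
    rw [if_neg hvU]
    exact hvi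

theorem gbgc_inj {n : ℕ} (U : Finset (Fin n)) (a : Fin n) (f g : Fin n → ℕ)
    (hf : ∀ u ∈ U, f u = f a) (hg : ∀ u ∈ U, g u = g a)
    (h : gbgc_r (U.erase a) f = gbgc_r (U.erase a) g) : f = g := by
  have h0 : ∀ v, v ∉ U.erase a → f v = g v := by
    intro v hv
    have h1 := congrFun h v
    unfold gbgc_r at h1
    rw [if_neg hv, if_neg hv] at h1
    exact h1
  funext v
  by_cases hv : v ∈ U.erase a
  · rw [hf v (mem_of_mem_erase hv), hg v (mem_of_mem_erase hv)]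
    exact h0 a (notMem_erase a U)
  · exact h0 v hv

open scoped Classical in
theorem gbgc_gen {n : ℕ} (W : Finset (Fin n)) (k s c : ℕ) (A P : ℕ) (S : Finset (Fin n → ℕ))
    (h1 : ∀ U ∈ W.powersetCard s, c * (S.filter (fun f => ∃ a ∈ U, ∀ u ∈ U, f u = f a)).card ≤ P)
    (hA : A = (S.filter (fun f => ∃ i ∈ Finset.Icc 1 k,
      s ≤ (W.filter (fun v => f v = i)).card)).card) (hs : 1 ≤ s) :
    c * A ≤ n.choose s * P := by
  have h2 : S.filter (fun f => ∃ i ∈ Finset.Icc 1 k, s ≤ (W.filter (fun v => f v = i)).card) ⊆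
      (W.powersetCard s).biUnion (fun U => S.filter (fun f => ∃ a ∈ U, ∀ u ∈ U, f u = f a)) := by
    intro f hf
    rw [gbgc_mf] at hf
    obtain ⟨hfS, i, _, hi⟩ := hf
    obtain ⟨U, hU1, hU2⟩ := exists_subset_card_eq hi
    rw [mem_biUnion]
    refine ⟨U, ?_, ?_⟩
    · rw [mem_powersetCard]
      exact ⟨hU1.trans (filter_subset _ _), hU2⟩
    · rw [gbgc_mf]
      have hne : U.Nonempty := by
        rw [← card_pos, hU2]
        omega
      obtain ⟨a, ha⟩ := hne
      have h3 : ∀ u ∈ U, f u = i := fun u hu => (mem_filter.1 (hU1 hu)).2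
      exact ⟨hfS, a, ha, fun u hu => by rw [h3 u hu, h3 a ha]⟩
  have h3 : A ≤ ∑ U ∈ W.powersetCard s,
      (S.filter (fun f => ∃ a ∈ U, ∀ u ∈ U, f u = f a)).card := by
    rw [hA]
    exact (card_le_card h2).trans card_biUnion_le
  calc c * A ≤ c * ∑ U ∈ W.powersetCard s,
        (S.filter (fun f => ∃ a ∈ U, ∀ u ∈ U, f u = f a)).card := Nat.mul_le_mul_left _ h3
    _ = ∑ U ∈ W.powersetCard s,
        c * (S.filter (fun f => ∃ a ∈ U, ∀ u ∈ U, f u = f a)).card := mul_sum _ _ _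
    _ ≤ ∑ U ∈ W.powersetCard s, P := sum_le_sum h1
    _ = W.card.choose s * P := by
        rw [sum_const, card_powersetCard, smul_eq_mul]
    _ ≤ n.choose s * P := by
        apply Nat.mul_le_mul_right
        apply Nat.choose_le_choose
        have := card_le_univ W
        rw [Fintype.card_fin] at this
        exact this

theorem st_GBGC (hF1 : ST_GF1) : ST_GBGC := by
  classical
  intro n D k0 k s E W hT hGD hk hs
  have hmain : ∀ U ∈ W.powersetCard s, ∀ a ∈ U, (W \ U.erase a) ∪ U.erase a = W ∧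
      (U.erase a).card = s - 1 := by
    intro U hU a ha
    rw [mem_powersetCard] at hU
    refine ⟨sdiff_union_of_subset ((erase_subset _ _).trans hU.1), ?_⟩
    rw [card_erase_of_mem ha, hU.2]
  have hex : ∀ U ∈ W.powersetCard s, ∃ a, a ∈ U := by
    intro U hU
    rw [mem_powersetCard] at hU
    have : U.Nonempty := by
      rw [← card_pos, hU.2]
      omega
    exact this
  have hconst : ∀ (U : Finset (Fin n)) (a : Fin n), a ∈ U → ∀ f : Fin n → ℕ,
      (∃ b ∈ U, ∀ u ∈ U, f u = f b) → ∀ u ∈ U, f u = f a := by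
    rintro U a ha f ⟨b, hb, hb2⟩ u hu
    rw [hb2 u hu, hb2 a ha]
  refine ⟨gbgc_gen W k s _ _ _ (CC E W k) ?_ (by rfl) hs,
    gbgc_gen W k s _ _ _ (SS E W k) ?_ (by rfl) hs⟩
  · intro U hU
    obtain ⟨a, ha⟩ := hex U hU
    obtain ⟨e1, e2⟩ := hmain U hU a ha
    have h1 := (hF1 n D k0 k E (W \ U.erase a) (U.erase a) hT hGD hk sdiff_disjoint).1
    rw [e1, e2] at h1
    refine le_trans (Nat.mul_le_mul_left _ ?_) h1
    unfold PP
    refine Finset.card_le_card_of_injOn (gbgc_r (U.erase a)) ?_ ?_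
    · intro f hf
      rw [mem_coe, gbgc_mf] at hf
      exact mem_coe.2 (gbgc_cc E W _ k f hf.1)
    · intro f hf g hg hfg
      rw [mem_coe, gbgc_mf] at hf hg
      exact gbgc_inj U a f g (hconst U a ha f hf.2) (hconst U a ha g hg.2) hfg
  · intro U hU
    obtain ⟨a, ha⟩ := hex U hU
    obtain ⟨e1, e2⟩ := hmain U hU a ha
    have h1 := (hF1 n D k0 k E (W \ U.erase a) (U.erase a) hT hGD hk sdiff_disjoint).2.2
    rw [e1, e2] at h1
    refine le_trans (Nat.mul_le_mul_left _ ?_) h1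
    unfold AA
    refine Finset.card_le_card_of_injOn (gbgc_r (U.erase a)) ?_ ?_
    · intro f hf
      rw [mem_coe, gbgc_mf] at hf
      exact mem_coe.2 (gbgc_ss E W U k a ha (mem_powersetCard.1 hU).1 f hf.1
        (hconst U a ha f hf.2))
    · intro f hf g hg hfg
      rw [mem_coe, gbgc_mf] at hf hg
      exact gbgc_inj U a f g (hconst U a ha f hf.2) (hconst U a ha g hg.2) hfg

end Pool.Agent.Helper5.WD
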