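import Pool.Agent.Helper40.WD.Stmts

/-! # Row STEP: one level of Davie's functions -/

set_option autoImplicit false

namespace Pool.Agent.Helper99.WD

open Pool.Agent.Helper40.WD

/-- three rows of the Hadamard matrix -/
def STEP_H : Fin 3 → Fin 4 → ℝ := ![![1, 1, -1, -1], ![1, -1, 1, -1], ![1, -1, -1, 1]]

/-- a combination of the four columns -/
noncomputable def STEP_V {m : ℕ} (s : Fin m → Fin 4 → ℝ) (U : Fin m → Fin 4 → Fin (4 * m) → ℝ)
    (i : Fin m) (a : Fin 4 → ℝ) (g : Fin (4 * m)) : ℝ :=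
  1 / 2 * ∑ c, a c * (s i c * U i c g)

theorem STEP_orth {m : ℕ} (s : Fin m → Fin 4 → ℝ) (U : Fin m → Fin 4 → Fin (4 * m) → ℝ)
    (hs : ∀ i c, s i c = 1 ∨ s i c = -1)
    (hU : ∀ i c i' c', ∑ g, U i c g * U i' c' g = if i = i' ∧ c = c' then (4 * m : ℝ) else 0)
    (i i' : Fin m) (a b : Fin 4 → ℝ) :
    ∑ g, STEP_V s U i a g * STEP_V s U i' b g =
      if i = i' then (m : ℝ) * ∑ c, a c * b c else 0 := by
  have h1 : ∀ g, STEP_V s U i a g * STEP_V s U i' b g =
      ∑ c, ∑ c', (1 / 4 * (a c * b c' * (s i c * s i' c'))) * (U i c g * U i' c' g) := by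
    intro g
    unfold STEP_V
    rw [mul_mul_mul_comm, Finset.sum_mul_sum, Finset.mul_sum]
    apply Finset.sum_congr rfl
    intro c _
    rw [Finset.mul_sum]
    apply Finset.sum_congr rfl
    intro c' _
    ring
  rw [Finset.sum_congr rfl (fun g _ => h1 g), Finset.sum_comm]
  have h2 : ∀ c, ∑ g, ∑ c', (1 / 4 * (a c * b c' * (s i c * s i' c'))) * (U i c g * U i' c' g) =
      ∑ c', (1 / 4 * (a c * b c' * (s i c * s i' c'))) *
        (if i = i' ∧ c = c' then (4 * m : ℝ) else 0) := by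
    intro c
    rw [Finset.sum_comm]
    apply Finset.sum_congr rfl
    intro c' _
    rw [← Finset.mul_sum, hU]
  rw [Finset.sum_congr rfl (fun c _ => h2 c)]
  by_cases hi : i = i'
  · subst hi
    rw [if_pos rfl, Finset.mul_sum]
    apply Finset.sum_congr rfl
    intro c _
    rw [Finset.sum_eq_single c]
    · rw [if_pos ⟨rfl, rfl⟩]
      have hsq : s i c * s i c = 1 := by
        rcases hs i c with h | h <;> rw [h] <;> norm_num
      rw [hsq]
      ring
    · intro c' _ hc'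
      rw [if_neg (fun h => hc' h.2.symm), mul_zero]
    · intro h
      exact absurd (Finset.mem_univ _) h
  · rw [if_neg hi]
    apply Finset.sum_eq_zero
    intro c _
    apply Finset.sum_eq_zero
    intro c' _
    rw [if_neg (fun h => hi h.1), mul_zero]

theorem STEP_le {m : ℕ} (s : Fin m → Fin 4 → ℝ) (U : Fin m → Fin 4 → Fin (4 * m) → ℝ)
    (hs : ∀ i c, s i c = 1 ∨ s i c = -1) (hU : ∀ i c g, |U i c g| ≤ 2)
    (i : Fin m) (a : Fin 4 → ℝ) (ha : ∀ c, |a c| ≤ 1) (g : Fin (4 * m)) :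
    |STEP_V s U i a g| ≤ 4 := by
  unfold STEP_V
  rw [abs_mul]
  have h1 : |∑ c, a c * (s i c * U i c g)| ≤ ∑ _c : Fin 4, (2 : ℝ) := by
    refine (Finset.abs_sum_le_sum_abs _ _).trans (Finset.sum_le_sum fun c _ => ?_)
    rw [abs_mul, abs_mul]
    have h2 : |s i c| = 1 := by
      rcases hs i c with h | h <;> rw [h] <;> norm_num
    rw [h2, one_mul]
    calc |a c| * |U i c g| ≤ 1 * 2 := mul_le_mul (ha c) (hU i c g) (abs_nonneg _) zero_le_one
      _ = 2 := by norm_num
  have h3 : ∑ _c : Fin 4, (2 : ℝ) = 8 := by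
    simp
    norm_num
  rw [h3] at h1
  have h4 : |(1 / 2 : ℝ)| = 1 / 2 := by norm_num
  rw [h4]
  linarith

theorem STEP_HH (r r' : Fin 3) :
    ∑ c, STEP_H r c * STEP_H r' c = if r = r' then (4 : ℝ) else 0 := by
  fin_cases r <;> fin_cases r' <;> simp [STEP_H, Fin.sum_univ_four] <;> norm_num

theorem STEP_H1 (r : Fin 3) : ∑ c, (1 : ℝ) * STEP_H r c = 0 := by
  fin_cases r <;> simp [STEP_H, Fin.sum_univ_four]

theorem STEP_Hle (r : Fin 3) (c : Fin 4) : |STEP_H r c| ≤ 1 := by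
  fin_cases r <;> fin_cases c <;> simp [STEP_H]

/-- the kernel identity -/
theorem STEP_ker (x y : Fin 4 → ℝ) :
    (∑ r : Fin 3, (1 / 2 * ∑ c, STEP_H r c * x c) * (1 / 2 * ∑ c, STEP_H r c * y c)) -
      3 * ((1 / 2 * ∑ c, 1 * x c) * (1 / 2 * ∑ c, 1 * y c)) =
    -(x 0 * y 1 + x 0 * y 2 + x 0 * y 3 + x 1 * y 0 + x 1 * y 2 + x 1 * y 3 +
      x 2 * y 0 + x 2 * y 1 + x 2 * y 3 + x 3 * y 0 + x 3 * y 1 + x 3 * y 2) := by
  simp only [Fin.sum_univ_three, Fin.sum_univ_four, STEP_H, Matrix.cons_val_zero,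
    Matrix.cons_val_one, Matrix.cons_val]
  ring

theorem st_STEP (h1 : ST_SGN) (h2 : ST_HART) : ST_STEP := by
  intro m N hm hN A hA
  obtain ⟨U, hU2, hUo⟩ := h2 m hm
  obtain ⟨s, hs, hs1, hs2⟩ := h1 m N hm hN A U hA hU2
  obtain ⟨B, hB⟩ : ∃ B : ℝ, B = (m : ℝ) ^ (3 / 4 : ℝ) := ⟨_, rfl⟩
  have hB0 : 0 ≤ B := by rw [hB]; positivity
  refine ⟨fun i g => STEP_V s U i (fun _ => 1) g,
    fun j g => STEP_V s U (finProdFinEquiv.symm j).2 (STEP_H (finProdFinEquiv.symm j).1) g,
    ?_, ?_, ?_, ?_, ?_, ?_, ?_⟩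
  · intro j g
    exact STEP_le s U hs hU2 _ _ (fun _ => by norm_num) g
  · intro j g
    exact STEP_le s U hs hU2 _ _ (fun c => STEP_Hle _ c) g
  · intro i j
    rw [STEP_orth s U hs hUo]
    congr 1
    simp
    ring
  · intro i j
    rw [STEP_orth s U hs hUo, STEP_HH]
    by_cases hij : i = j
    · subst hij
      rw [if_pos rfl, if_pos rfl, if_pos rfl]
      ring
    · rw [if_neg hij]
      by_cases h3 : (finProdFinEquiv.symm i).2 = (finProdFinEquiv.symm j).2
      · have h4 : (finProdFinEquiv.symm i).1 ≠ (finProdFinEquiv.symm j).1 := by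
          intro h5
          exact hij (finProdFinEquiv.symm.injective (Prod.ext h5 h3))
        rw [if_pos h3, if_neg h4, mul_zero]
      · rw [if_neg h3]
  · intro i j
    rw [STEP_orth s U hs hUo, STEP_H1, mul_zero, ite_self]
  · intro g h
    have e1 : ∑ j : Fin (3 * m), STEP_V s U (finProdFinEquiv.symm j).2
          (STEP_H (finProdFinEquiv.symm j).1) g *
        STEP_V s U (finProdFinEquiv.symm j).2 (STEP_H (finProdFinEquiv.symm j).1) h =
        ∑ i : Fin m, ∑ r : Fin 3, STEP_V s U i (STEP_H r) g * STEP_V s U i (STEP_H r) h := by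
      rw [Equiv.sum_comp finProdFinEquiv.symm (fun p : Fin 3 × Fin m =>
        STEP_V s U p.2 (STEP_H p.1) g * STEP_V s U p.2 (STEP_H p.1) h),
        Fintype.sum_prod_type, Finset.sum_comm]
    rw [e1, Finset.mul_sum, ← Finset.sum_sub_distrib]
    have e2 : ∀ i : Fin m, (∑ r : Fin 3, STEP_V s U i (STEP_H r) g * STEP_V s U i (STEP_H r) h) -
        3 * (STEP_V s U i (fun _ => 1) g * STEP_V s U i (fun _ => 1) h) =
        -(s i 0 * s i 1 * (U i 0 g * U i 1 h) + s i 0 * s i 2 * (U i 0 g * U i 2 h) +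
          s i 0 * s i 3 * (U i 0 g * U i 3 h) + s i 1 * s i 0 * (U i 1 g * U i 0 h) +
          s i 1 * s i 2 * (U i 1 g * U i 2 h) + s i 1 * s i 3 * (U i 1 g * U i 3 h) +
          s i 2 * s i 0 * (U i 2 g * U i 0 h) + s i 2 * s i 1 * (U i 2 g * U i 1 h) +
          s i 2 * s i 3 * (U i 2 g * U i 3 h) + s i 3 * s i 0 * (U i 3 g * U i 0 h) +
          s i 3 * s i 1 * (U i 3 g * U i 1 h) + s i 3 * s i 2 * (U i 3 g * U i 2 h)) := by
      intro i
      unfold STEP_V
      rw [STEP_ker (fun c => s i c * U i c g) (fun c => s i c * U i c h)]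
      ring
    rw [Finset.sum_congr rfl (fun i _ => e2 i), Finset.sum_neg_distrib, abs_neg]
    simp only [Finset.sum_add_distrib]
    have k := fun (c c' : Fin 4) (hc : c ≠ c') => abs_le.mp (hs1 c c' g h hc)
    have k01 := k 0 1 (by decide)
    have k02 := k 0 2 (by decide)
    have k03 := k 0 3 (by decide)
    have k10 := k 1 0 (by decide)
    have k12 := k 1 2 (by decide)
    have k13 := k 1 3 (by decide)
    have k20 := k 2 0 (by decide)
    have k21 := k 2 1 (by decide)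
    have k23 := k 2 3 (by decide)
    have k30 := k 3 0 (by decide)
    have k31 := k 3 1 (by decide)
    have k32 := k 3 2 (by decide)
    rw [← hB] at *
    rw [abs_le]
    constructor <;> linarith [k01.1, k01.2, k02.1, k02.2, k03.1, k03.2, k10.1, k10.2, k12.1,
      k12.2, k13.1, k13.2, k20.1, k20.2, k21.1, k21.2, k23.1, k23.2, k30.1, k30.2, k31.1, k31.2,
      k32.1, k32.2]
  · intro g h
    have e1 : ∑ j, A j g * STEP_V s U j (fun _ => 1) h =
        1 / 2 * ∑ c : Fin 4, ∑ j, s j c * (A j g * U j c h) := by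
      rw [Finset.sum_comm, Finset.mul_sum]
      apply Finset.sum_congr rfl
      intro j _
      unfold STEP_V
      rw [← mul_assoc, mul_comm (A j g), mul_assoc, Finset.mul_sum]
      congr 1
      apply Finset.sum_congr rfl
      intro c _
      ring
    rw [e1, Fin.sum_univ_four]
    have k0 := abs_le.mp (hs2 0 g h)
    have k1 := abs_le.mp (hs2 1 g h)
    have k2 := abs_le.mp (hs2 2 g h)
    have k3 := abs_le.mp (hs2 3 g h)
    rw [← hB] at *
    rw [abs_le]
    constructor <;> linarith [k0.1, k0.2, k1.1, k1.2, k2.1, k2.2, k3.1, k3.2]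

end Pool.Agent.Helper99.WD
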